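import Pool.Agent.Y104.WL.Stm

/-!
# Products of linearly independent classes of degree one on an abelian variety
-/

open CategoryTheory AlgebraicGeometry

set_option autoImplicit false

universe u v

namespace Pool.Agent.Y779.WL

open Pool.Agent.H914 Pool.Agent.H914.VarClass Pool.Agent.H914.VarClass.Obj
  Pool.Agent.H914.WeilCohomology

variable {k : Type u} [Field k] {𝒱 : VarClass k} {ops : CycleOps 𝒱}
  (W : WeilCohomology.{u, v} ops) {A B : 𝒱.Obj}

/-- the product of a family -/
noncomputable def Pr {r : ℕ} (v : Fin r → W.H A) : W.H A := (List.ofFn v).prod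

theorem Pr_zero (v : Fin 0 → W.H A) : Pr W v = 1 := by
  rw [Pr, List.ofFn_zero, List.prod_nil]

theorem Pr_succ {r : ℕ} (v : Fin (r + 1) → W.H A) :
    Pr W v = v 0 * Pr W (fun i => v i.succ) := by
  rw [Pr, Pr, List.ofFn_succ, List.prod_cons]

theorem Pr_mem {r : ℕ} (v : Fin r → W.H A) (hv : ∀ a, v a ∈ W.gr A 1) : Pr W v ∈ W.gr A r := by
  induction r with
  | zero => rw [Pr_zero]; exact W.one_mem A
  | succ r ih =>
    rw [Pr_succ]
    have h1 := W.mul_mem (hv 0) (ih _ fun a => hv a.succ)
    rwa [Nat.add_comm 1 r] at h1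

theorem map_Pr (f : B ⟶ A) {r : ℕ} (v : Fin r → W.H A) :
    W.map f (Pr W v) = Pr W (fun a => W.map f (v a)) := by
  rw [Pr, Pr, map_list_prod, List.map_ofFn]
  rfl

/-- the product of the sums, multiplied by a class which is killed by the `v a` -/
theorem prod_sum {r : ℕ} (v : Fin r → W.H A) (hv : ∀ a, v a ∈ W.gr A 1) (c : W.H A)
    (hc : ∀ a, v a * c = 0) :
    Pr W (fun a => W.map (fst A A) (v a) + W.map (snd A A) (v a)) * W.map (snd A A) c =
      W.map (fst A A) (Pr W v) * W.map (snd A A) c := by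
  induction r with
  | zero => rw [Pr_zero, Pr_zero, map_one]
  | succ r ih =>
    rw [Pr_succ, Pr_succ, mul_assoc, ih _ (fun a => hv a.succ) (fun a => hc a.succ), add_mul,
      map_mul]
    have h1 : W.map (snd A A) (v 0) * (W.map (fst A A) (Pr W fun i => v i.succ) *
        W.map (snd A A) c) = 0 := by
      rw [← mul_assoc, W.comm (W.map_mem (snd A A) (hv 0))
        (W.map_mem (fst A A) (Pr_mem W _ fun a => hv a.succ)), smul_mul_assoc, mul_assoc,
        ← map_mul, hc 0, map_zero, mul_zero, smul_zero]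
    rw [h1, add_zero, mul_assoc]

/-- the class dual to the first member of an independent family -/
theorem exists_dual {r : ℕ} (v : Fin (r + 1) → W.H A) (hv : ∀ a, v a ∈ W.gr A 1)
    (hi : LinearIndependent W.K v) :
    ∃ c ∈ W.gr A (2 * A.dim - 1), W.tr A (v 0 * c) = 1 ∧ ∀ a, a ≠ 0 → W.tr A (v a * c) = 0 := by
  classical
  have hdim : A.dim ≠ 0 := by
    intro h0
    have h1 := hi.ne_zero 0
    apply h1
    have h2 := hv 0
    rw [W.gr_eq_bot A 1 (by omega)] at h2
    simpa using h2
  -- the functional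
  obtain ⟨φ, hφ⟩ : ∃ φ : W.H A →ₗ[W.K] W.K, ∀ a, φ (v a) = if a = 0 then 1 else 0 := by
    obtain ⟨φ, hφ⟩ := LinearMap.exists_extend
      ((Finsupp.lapply (0 : Fin (r + 1))).comp hi.repr)
    refine ⟨φ, fun a => ?_⟩
    have h1 := congrArg (fun g => g ⟨v a, Submodule.subset_span ⟨a, rfl⟩⟩) hφ
    simp only [LinearMap.comp_apply, Submodule.subtype_apply] at h1
    rw [h1]
    have h2 : hi.repr ⟨v a, Submodule.subset_span ⟨a, rfl⟩⟩ = Finsupp.single a 1 :=
      hi.repr_eq_single a _ rfl
    show (hi.repr ⟨v a, Submodule.subset_span ⟨a, rfl⟩⟩) 0 = _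
    rw [h2, Finsupp.single_apply]
  -- the representing class
  obtain ⟨c, hc⟩ : ∃ c : W.H A, ∀ a, W.tr A (a * c) = φ a := by
    set T : W.H A →ₗ[W.K] Module.Dual W.K (W.H A) :=
      { toFun := fun a => W.tr A ∘ₗ LinearMap.mulLeft W.K a
        map_add' := fun a b => by ext x; simp [add_mul]
        map_smul' := fun q a => by ext x; simp } with hT
    have hTi : Function.Injective T := by
      rw [injective_iff_map_eq_zero]
      intro a ha
      exact W.nondeg a fun b => congrArg (fun g => g b) ha
    have hTs : Function.Surjective T :=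
      (LinearMap.injective_iff_surjective_of_finrank_eq_finrank
        (Subspace.dual_finrank_eq (K := W.K) (V := W.H A)).symm).1 hTi
    set S : W.H A →ₗ[W.K] Module.Dual W.K (W.H A) :=
      { toFun := fun c => W.tr A ∘ₗ LinearMap.mulRight W.K c
        map_add' := fun a b => by ext x; simp [mul_add]
        map_smul' := fun q a => by ext x; simp } with hS
    have hSi : Function.Injective S := by
      rw [injective_iff_map_eq_zero]
      intro c hc
      rw [← Module.forall_dual_apply_eq_zero_iff W.K c]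
      intro ψ
      obtain ⟨a, rfl⟩ := hTs ψ
      exact congrArg (fun g => g a) hc
    have hSs : Function.Surjective S :=
      (LinearMap.injective_iff_surjective_of_finrank_eq_finrank
        (Subspace.dual_finrank_eq (K := W.K) (V := W.H A)).symm).1 hSi
    obtain ⟨c, hc⟩ := hSs φ
    exact ⟨c, fun a => congrArg (fun g => g a) hc⟩
  have hproj : ∀ x ∈ W.gr A 1, ∀ c : W.H A,
      W.tr A (x * proj (W.isInternal A) (2 * A.dim - 1) c) = W.tr A (x * c) := by
    intro x hx c
    refine gr_induction (W.isInternal A) (p := fun c =>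
      W.tr A (x * proj (W.isInternal A) (2 * A.dim - 1) c) = W.tr A (x * c)) ?_ ?_ c
    · intro j b hb
      by_cases hj : j = 2 * A.dim - 1
      · subst hj; rw [proj_same _ hb]
      · rw [proj_ne _ hb hj, mul_zero, map_zero, W.tr_eq_zero (W.mul_mem hx hb) (by omega)]
    · intro b b' hb hb'
      rw [map_add, mul_add, mul_add, map_add, map_add, hb, hb']
  refine ⟨proj (W.isInternal A) (2 * A.dim - 1) c, proj_mem _ _ _, ?_, fun a ha => ?_⟩
  · rw [hproj _ (hv 0), hc, hφ, if_pos rfl]
  · rw [hproj _ (hv a), hc, hφ, if_neg ha]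

/-- a class of top degree with trace zero vanishes -/
theorem top_zero {x : W.H A} (hx : x ∈ W.gr A (2 * A.dim)) (h : W.tr A x = 0) : x = 0 := by
  apply W.nondeg
  intro b
  refine gr_induction (W.isInternal A) (p := fun b => W.tr A (x * b) = 0) ?_ ?_ b
  · intro i b hb
    rcases Nat.eq_zero_or_pos i with rfl | hi
    · rw [W.gr_zero, Submodule.mem_span_singleton] at hb
      obtain ⟨q, rfl⟩ := hb
      rw [mul_smul_comm, mul_one, map_smul, h, smul_zero]
    · exact W.tr_eq_zero (W.mul_mem hx hb) (by omega)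
  · intro b b' hb hb'
    rw [mul_add, map_add, hb, hb', add_zero]

theorem avn (m : A.prod A ⟶ A) (hm : ∀ x ∈ W.gr A 1, W.map m x =
      W.map (fst A A) x + W.map (snd A A) x) :
    ∀ (r : ℕ) (v : Fin r → W.H A), (∀ a, v a ∈ W.gr A 1) → LinearIndependent W.K v →
      (r ≠ 0 ∨ (1 : W.H A) ≠ 0) → (List.ofFn v).prod ≠ 0 := by
  have main : ∀ (r : ℕ) (v : Fin r → W.H A), (∀ a, v a ∈ W.gr A 1) → LinearIndependent W.K v →
      (1 : W.H A) ≠ 0 → Pr W v ≠ 0 := by
    intro r
    induction r with
    | zero => intro v _ _ h1; rw [Pr_zero]; exact h1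
    | succ r ih =>
      intro v hv hi h1 h0
      obtain ⟨c, hcm, hc0, hca⟩ := exists_dual W v hv hi
      have hdim : A.dim ≠ 0 := by
        intro h0
        have h1 := hi.ne_zero 0
        apply h1
        have h2 := hv 0
        rw [W.gr_eq_bot A 1 (by omega)] at h2
        simpa using h2
      have hdeg : 1 + (2 * A.dim - 1) = 2 * A.dim := by omega
      have hkill : ∀ a : Fin r, v a.succ * c = 0 := by
        intro a
        apply top_zero W
        · have := W.mul_mem (hv a.succ) hcm
          rwa [hdeg] at this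
        · exact hca _ (Fin.succ_ne_zero a)
      have hu : v 0 * c ∈ W.gr A (2 * A.dim) := by
        have := W.mul_mem (hv 0) hcm
        rwa [hdeg] at this
      set w : W.H A := Pr W fun i => v i.succ with hw
      have hwm : w ∈ W.gr A r := Pr_mem W _ fun a => hv a.succ
      -- the main identity
      have e1 : W.map m (Pr W v) * W.map (snd A A) c = 0 := by rw [h0, map_zero, zero_mul]
      rw [map_Pr] at e1
      have e2 : (fun a => W.map m (v a)) = fun a => W.map (fst A A) (v a) + W.map (snd A A) (v a) :=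
        funext fun a => hm _ (hv a)
      rw [e2, Pr_succ, mul_assoc, prod_sum W _ (fun a => hv a.succ) c hkill, ← hw, add_mul,
        ← mul_assoc, ← map_mul] at e1
      have e3 : v 0 * w = 0 := by rw [hw, ← Pr_succ, h0]
      rw [e3, map_zero, zero_mul, zero_add, ← mul_assoc,
        W.comm (W.map_mem (snd A A) (hv 0)) (W.map_mem (fst A A) hwm), smul_mul_assoc, mul_assoc,
        ← map_mul] at e1
      have e4 : W.map (fst A A) w * W.map (snd A A) (v 0 * c) = 0 := by
        have hne : ((-1 : W.K)) ^ (1 * r) ≠ 0 := pow_ne_zero _ (neg_ne_zero.2 one_ne_zero)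
        exact (smul_eq_zero.1 e1).resolve_left hne
      apply ih _ (fun a => hv a.succ) (hi.comp _ (Fin.succ_injective r)) h1
      rw [← hw]
      apply W.nondeg
      intro b
      have e5 := W.tr_prod (X := A) (Y := A) (w * b) (v 0 * c)
      have e6 : W.map (fst A A) (w * b) * W.map (snd A A) (v 0 * c) = 0 := by
        rw [map_mul, mul_assoc, ← W.even_comm (W.map_mem (snd A A) hu), ← mul_assoc, e4, zero_mul]
      rw [e6, map_zero, hc0, mul_one] at e5
      exact e5.symm
  intro r v hv hi h
  refine main r v hv hi ?_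
  rcases h with h | h
  · obtain ⟨r, rfl⟩ := Nat.exists_eq_succ_of_ne_zero h
    intro h1
    apply hi.ne_zero 0
    rw [← one_mul (v 0), h1, zero_mul]
  · exact h

/-- The statement `S_AVN`, given that the cohomology rings are not zero. -/
theorem avn_of (h1 : ∀ (k : Type u) [Field k] (𝒱 : VarClass k) (ops : CycleOps 𝒱)
    (W : WeilCohomology.{u, v} ops) (A : 𝒱.Obj), (1 : W.H A) ≠ 0) :
    Pool.Agent.Y104.WL.S_AVN.{u, v} :=
  fun k _ 𝒱 ops W A m hm r v hv hi => avn W m hm r v hv hi (Or.inr (h1 k 𝒱 ops W A))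

end Pool.Agent.Y779.WL
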